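import Mathlib
import Pool.Agent.U529.LD.Final

/-!
# Prime translates of the patterns of an arbitrary set of shifts in `[1, N]`

For a finite set `T` of integers (a pattern) let `R_T` be the number of `n ≤ N` such that all `n + t`, `t ∈ T`, are
prime, divided by the prediction `C_T N / (log N) ^ |T|` of Hardy and Littlewood. Let `k ≥ 1`, `1/2 ≤ δ ≤ 1`, and let
`A ⊆ [1, N]` be any set with at least `N ^ (2 δ - 1) (log N) ^ B` elements. The patterns are the `(k+1)`-element
subsets of `A`, and they are weighted by `C_T`; the total weight is at least `(1 - ε) |A| ^ (k+1) / (k+1)!`.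

* The mean of `R_T` is at least `1 - ε`.
* `R_T ≤ (2/δ) ^ k + ε` for all but `|A| ^ k N ^ (2 δ - 1) (log N) ^ B` admissible patterns.
* Hence `R_T ≥ κ` with a probability of at least `(1 - κ) / ((2/δ) ^ k - κ) - ε`.

Proof. The upper bound replaces the primes by numbers free of prime factors up to `N ^ (δ/2)`, one shift after the
other, with Selberg's weights of level `N ^ δ`. The exceptional shifts of one step are counted by duality: the
frequencies of the weights up to `N ^ (1/2)` through correlations of two shifts (`Pool.Agent.Y822`, starting files),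
the others by the additive large sieve (`Brun.lean`, `Few.lean`, `Few2.lean`); a power of the logarithm is gained
because these frequencies have no prime factors up to `y = exp (κ log N / log log N)`; Brun's pure sieve handles the
primes up to `y`. For the mean, `binomial (X, k+1)` for the number `X` of prime translates is bounded below by the
tangent at the corresponding multiple of the number of `y`-rough translates (`Mean.lean`, `Mean2.lean`); primes with
rough translates in a window are counted with a fundamental lemma (`Win.lean`).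
-/

set_option autoImplicit false

namespace Pool.Agent.Results.MP_68a45e_nt.DenserSetsOfShifts

open Finset Pool.Agent.H387R2.Uni

/-- the number of `1 ≤ n ≤ N` such that all `n + t`, `t ∈ T`, are prime -/
def translates (T : Finset ℕ) (N : ℕ) : ℕ := ((Icc 1 N).filter (fun n => ∀ t ∈ T, (n + t).Prime)).card

open Classical in
theorem result :
    -- the conjectured constants are convergent products, positive for admissible patterns
    (∀ T : Finset ℕ, HasProd (fun p : Nat.Primes => locT T p) (CT T) ∧ (Adm T → 0 < CT T)) ∧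
    ∀ k : ℕ, 1 ≤ k → ∀ δ κ ε : ℝ, 1 / 2 ≤ δ → δ ≤ 1 → 0 ≤ κ → κ < 1 → 0 < ε → ε ≤ 1 →
      ∃ B N₀ : ℕ, ∀ N : ℕ, N₀ ≤ N → ∀ A : Finset ℕ, (∀ a ∈ A, 1 ≤ a ∧ a ≤ N) →
        (N : ℝ) ^ (2 * δ - 1) * Real.log N ^ B ≤ A.card →
        -- the total weight
        (1 - ε) * (A.card : ℝ) ^ (k + 1) ≤ (k + 1).factorial * ∑ T ∈ A.powersetCard (k + 1), CT T ∧
        -- the mean over the patterns
        (1 - ε) * (N / Real.log N ^ (k + 1) * ∑ T ∈ A.powersetCard (k + 1), CT T) ≤
          ∑ T ∈ A.powersetCard (k + 1), (translates T N : ℝ) ∧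
        -- the upper bound for almost all admissible patterns
        (((A.powersetCard (k + 1)).filter (fun T => Adm T ∧
          ((2 / δ) ^ k + ε) * CT T * (N / Real.log N ^ (k + 1)) < translates T N)).card : ℝ) ≤
            (A.card : ℝ) ^ k * ((N : ℝ) ^ (2 * δ - 1) * Real.log N ^ B) ∧
        -- the weight of the patterns which reach the fraction `κ` of the prediction
        ((1 - κ) / ((2 / δ) ^ k - κ) - ε) * ∑ T ∈ A.powersetCard (k + 1), CT T ≤
          ∑ T ∈ (A.powersetCard (k + 1)).filter
            (fun T => κ * CT T * (N / Real.log N ^ (k + 1)) ≤ translates T N), CT T := by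
  refine ⟨fun T => ⟨CT_hasProd T, fun hT => ?_⟩, fun k hk δ κ ε hδ hδ1 hκ hκ1 hε hε1 => ?_⟩
  · rw [← CT_en]
    apply Pool.Agent.H386R2.HL.singularSeries_pos (en_inj T)
    intro p hp
    rw [nu_en]
    exact hT p hp
  · obtain ⟨B, hB⟩ := Pool.Agent.U529.LD.main k hk δ κ ε hδ hδ1 hκ hκ1 hε hε1
    have hm := Pool.Agent.U529.LD.mean k hk ε hε hε1
    obtain ⟨N₁, h₁⟩ := Filter.eventually_atTop.1 hB
    obtain ⟨N₂, h₂⟩ := Filter.eventually_atTop.1 hm
    refine ⟨B + (k + 2), max (max N₁ N₂) 3, fun N hN A hA hAc => ?_⟩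
    have hN1 := ((le_max_left _ _).trans (le_max_left _ _)).trans hN
    have hN2 := ((le_max_right N₁ N₂).trans (le_max_left _ 3)).trans hN
    have hN3 := (le_max_right (max N₁ N₂) 3).trans hN
    have hNr : (1 : ℝ) ≤ N := by exact_mod_cast (by omega : 1 ≤ N)
    have hL1 : 1 ≤ Real.log N := by
      rw [Real.le_log_iff_exp_le (by linarith)]
      have h3 : (3 : ℝ) ≤ N := by exact_mod_cast hN3
      have := Real.exp_one_lt_d9
      linarith
    have hR1 : 1 ≤ (N : ℝ) ^ (2 * δ - 1) := Real.one_le_rpow hNr (by linarith)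
    have hA1 : (N : ℝ) ^ (2 * δ - 1) * Real.log N ^ B ≤ A.card := by
      refine le_trans ?_ hAc
      exact mul_le_mul_of_nonneg_left (pow_le_pow_right₀ hL1 (by omega)) (by linarith)
    have hA2 : Real.log N ^ (k + 2) ≤ A.card := by
      refine le_trans ?_ hAc
      calc Real.log N ^ (k + 2) = 1 * Real.log N ^ (k + 2) := (one_mul _).symm
        _ ≤ (N : ℝ) ^ (2 * δ - 1) * Real.log N ^ (B + (k + 2)) :=
          mul_le_mul hR1 (pow_le_pow_right₀ hL1 (by omega)) (by positivity) (by linarith)
    obtain ⟨m1, m2, m3⟩ := h₁ N hN1 A hA hA1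
    obtain ⟨_, _, m4⟩ := h₂ N hN2 A hA hA2
    refine ⟨m1, m4, m3.trans ?_, m2⟩
    apply mul_le_mul_of_nonneg_left _ (by positivity)
    exact mul_le_mul_of_nonneg_left (pow_le_pow_right₀ hL1 (by omega)) (by linarith)

end Pool.Agent.Results.MP_68a45e_nt.DenserSetsOfShifts
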