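import Pool.Agent.U828.KD.One
import Pool.Agent.H560R3.GB.Tup3
import Pool.Agent.H560R3.GB.Defs

/-!
# The prime tuples conjecture for all the shifts near the values of arbitrary functions of higher convexity

Let `f 1, ..., f k` be ANY functions, `f i` on `{1, ..., x i}` with `x i ≥ N ^ (1 / d i + η)` and with values in `[0, B N]`,
where `2 ≤ d i ≤ R`, and let the differences of order `d i` of `f i` be all at least `N / ((x i) ^ (d i) log ^ C N)`, or all
at most the negative of this number. For all but a proportion `1 / log ^ U N` of the vectors `m = (m 1, ..., m k)`, the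
formula of Hardy and Littlewood holds for EVERY vector of shifts `a` with `|a i - f i (m i)| ≤ log ^ C N` for all `i`.

For `d i = 2` the function `f i` is strictly convex (or concave), and for larger `d i` the shift runs through a set of
only `N ^ (1 / d i + η)` points (every power `N ^ θ`, `θ > 0`, is allowed). No other regularity is assumed: the differences
of order `d i - 1` are an arbitrary sequence whose increments have one sign and are at least
`N / ((x i) ^ (d i) log ^ C N)`, a number which is smaller than `N ^ (- η)`. In particular real polynomials of degree `d i`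
and `α m ^ c` with real non-integral `c` are covered, and all their perturbations with small `d i`-th differences. The
earlier result `PiatetskiShapiroShifts` of this problem treats generalised polynomials whose leading exponents are not
integers; the criterion `FamiliesOfShifts` needs the additive energy of the families, which is not small for a
general function of this kind with flat parts, and was not known for any of them.

Definitions used: `Pool.Agent.H373R2.T7.singZ a z`: the partial product over the primes `p ≤ z` of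
`(1 - ν(p) / p) / (1 - 1 / p) ^ (k + 1)`, where `ν(p)` is the number of `r < p` for which `p` divides
`r (r + a 1) ... (r + a k)`; `Pool.Agent.H373R2.T7.tupleCount a N`: the sum of
`log p * ∏ i, log (p + a i)` over the primes `p ≤ N` for which all `p + a i` are primes;
`Pool.Agent.H373R2.T7.Admissible a`: for every prime `p` there is an `r` such that `p` divides neither
`r` nor any `r + a i`; `Pool.Agent.H560R3.GB.primeTuples a N`: the number of primes `p ≤ N` for which
all `p + a i` are primes.

Proof: the energy theorem `Pool.Agent.U828.KD.energy_r` (helper828: a `d`-th derivative test for arbitrary sequences, and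
Fejér kernels); every family near such functions is split into parts of nearly minimal additive energy and a small
remainder, and the passage to all the vectors near the values is `Pool.Agent.U828.KD.nearAllG` (helper828); the asymptotic
formula on average over such families is `Pool.Agent.H560R3.GB.ftuples_full` (starting files).
-/

set_option autoImplicit false

namespace Pool.Agent.Results.MP_68a45e_nt.HigherConvexShifts

open Finset Pool.Agent.H560R3.GB
open Pool.Agent.H373R2.T7 (singZ tupleCount Admissible)

/-- The formula of Hardy and Littlewood for the shifts `a 1, ..., a k` and the primes up to `N`: the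
singular series converges, its sum `S` predicts the weighted number of prime tuples with an error of
at most `N / log ^ U N`, and, if the shifts are admissible, `S` is positive and `S N / log ^ (k + 1) N`
predicts the number of prime tuples with a relative error of at most `ε`. -/
def Holds {k : ℕ} (ε : ℝ) (U N : ℕ) (a : Fin k → ℕ) : Prop :=
  ∃ S : ℝ, Filter.Tendsto (fun z => singZ (fun i => (a i : ℤ)) z) Filter.atTop (nhds S) ∧
    |tupleCount (fun i => (a i : ℤ)) N - S * N| ≤ (N : ℝ) / Real.log N ^ U ∧
    (Admissible (fun i => (a i : ℤ)) → 0 < S ∧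
      |(primeTuples a N : ℝ) - S * (N / Real.log N ^ (k + 1))| ≤ ε * (S * (N / Real.log N ^ (k + 1))))

/-- The differences of order `d` of `f` on `{1, ..., x}` are all at least `κ`, or all at most `-κ`. Here `fwdDiff 1 f m`
is the difference `f (m + 1) - f m`. -/
def Bent (d x : ℕ) (f : ℕ → ℝ) (κ : ℝ) : Prop :=
  (∀ m, 1 ≤ m → m + d ≤ x → κ ≤ (fwdDiff 1)^[d] f m) ∨ (∀ m, 1 ≤ m → m + d ≤ x → (fwdDiff 1)^[d] f m ≤ -κ)

/-- All the shifts `a`, `0 ≤ a i ≤ B N`, with `|a i - f i (m i)| ≤ log ^ C N` satisfy `Holds ε U N a`. -/
def AllNear {k : ℕ} (B C U : ℕ) (ε : ℝ) (N : ℕ) (f : Fin k → ℕ → ℝ) (m : Fin k → ℕ) : Prop :=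
  ∀ a : Fin k → ℕ, (∀ i, a i ≤ B * N ∧ |(a i : ℝ) - f i (m i)| ≤ Real.log N ^ C) → Holds ε U N a

lemma energy_eq (h x : ℕ) (s : ℕ → ℕ) :
    Pool.Agent.H373R2.T7.energy h x (fun m => (s m : ℤ)) = energy h x s := by
  unfold energy Pool.Agent.H373R2.T7.energy
  congr 1
  apply filter_congr
  intro q _
  change (∑ i, ((s (q.1 i) : ℕ) : ℤ) = ∑ i, ((s (q.2 i) : ℕ) : ℤ)) ↔ _
  constructor
  · intro h; exact_mod_cast h
  · intro h; exact_mod_cast h

lemma crit (k B V : ℕ) (hk : 1 ≤ k) (ε : ℝ) (hε : 0 < ε) :
    Pool.Agent.U828.CV.Crit k B (fun N a => ¬ Holds ε V N a) := by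
  classical
  intro h D U hh
  obtain ⟨c, hc, hlow⟩ := Pool.Agent.H373R2.T7.singZ_low k
  obtain ⟨N₀, h0⟩ := ftuples_full k h B D (max U (V + 1)) hk hh
  obtain ⟨N₁, h1⟩ := tuple_transfer k B c ε hc hε
  obtain ⟨N₂, h2⟩ := Pool.Agent.H373R2.T7.ev_L' 1
  refine ⟨N₀ + N₁ + N₂ + 3, fun N hN x s hs hE T hT hTb => ?_⟩
  have hL := h2 N (by omega)
  have hL0 : 0 < Real.log (N : ℝ) := by linarith
  have hN0 : (0 : ℝ) ≤ N := Nat.cast_nonneg _
  have hp0 : 0 ≤ ∏ i, (x i : ℝ) := prod_nonneg fun i _ => Nat.cast_nonneg _
  by_cases hx : ∀ i, 1 ≤ x i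
  swap
  · push Not at hx
    obtain ⟨i, hi⟩ := hx
    have hT0 : T = ∅ := by
      rw [eq_empty_iff_forall_notMem]
      intro m hm
      have := mem_Icc.1 (Fintype.mem_piFinset.1 (hT hm) i)
      omega
    rw [hT0, card_empty, Nat.cast_zero]
    positivity
  have h3 := h0 N (by omega) x s hx hs (fun i => by rw [energy_eq]; exact hE i)
  refine le_trans ?_ (h3.trans ?_)
  · have hsub : T ⊆ (Fintype.piFinset (fun i => Icc 1 (x i))).filter (fun m : Fin k → ℕ =>
        ¬ ∃ S : ℝ, Filter.Tendsto (fun z => singZ (fun i => (s i (m i) : ℤ)) z) Filter.atTop (nhds S) ∧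
        |tupleCount (fun i => (s i (m i) : ℤ)) N - S * N| ≤ (N : ℝ) / Real.log N ^ (max U (V + 1))) := by
      intro m hm
      rw [mem_filter]
      refine ⟨hT hm, fun hcon => hTb m hm ?_⟩
      obtain ⟨S, hS, hS2⟩ := hcon
      refine ⟨S, hS, hS2.trans ?_, fun hadm => ?_⟩
      · apply div_le_div_of_nonneg_left hN0 (by positivity)
        exact pow_le_pow_right₀ hL ((by omega : V ≤ V + 1).trans (le_max_right _ _))
      · have hcS : c ≤ S := ge_of_tendsto' hS (hlow _ hadm)
        refine ⟨lt_of_lt_of_le hc hcS, ?_⟩
        apply h1 N (by omega) (fun i => s i (m i)) (fun i => ?_) S hcS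
        · refine hS2.trans ?_
          apply div_le_div_of_nonneg_left hN0 hL0
          exact le_self_pow₀ hL (by omega)
        · exact hs i (m i) (Fintype.mem_piFinset.1 (hT hm) i)
    exact_mod_cast card_le_card hsub
  · apply div_le_div_of_nonneg_left hp0 (by positivity)
    exact pow_le_pow_right₀ hL (le_max_left _ _)

open Classical in
/-- Let `k ≥ 1`, `R`, `B`, `C`, `U`, `η > 0` and `ε > 0` be fixed. For all large `N`, all orders `d i` with `2 ≤ d i ≤ R`,
all `x 1, ..., x k` with `x i ≥ N ^ (1 / d i + η)` and all functions `f i : {1, ..., x i} → [0, B N]` whose differences of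
order `d i` are all at least `N / ((x i) ^ (d i) log ^ C N)` or all at most the negative of this number, all the vectors `m`
in the box `1 ≤ m i ≤ x i`, with the exception of at most `∏ x i / log ^ U N` of them, have the following property: the
formula of Hardy and Littlewood `Holds ε U N a` holds for every vector `a` of integers in `[0, B N]` with
`|a i - f i (m i)| ≤ log ^ C N` for all `i`. -/
theorem result (k R B C U : ℕ) (hk : 1 ≤ k) (η ε : ℝ) (hη : 0 < η) (hε : 0 < ε) :
    ∃ N₀ : ℕ, ∀ N : ℕ, N₀ ≤ N → ∀ d : Fin k → ℕ, (∀ i, 2 ≤ d i ∧ d i ≤ R) →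
    ∀ x : Fin k → ℕ, (∀ i, (N : ℝ) ^ (1 / (d i : ℝ) + η) ≤ x i) →
    ∀ f : Fin k → ℕ → ℝ, (∀ i, ∀ m ∈ Icc 1 (x i), 0 ≤ f i m ∧ f i m ≤ B * N) →
    (∀ i, Bent (d i) (x i) (f i) (N / ((x i : ℝ) ^ (d i) * Real.log N ^ C))) →
    (((Fintype.piFinset (fun i => Icc 1 (x i))).filter (fun m => ¬ AllNear B C U ε N f m)).card : ℝ) ≤
      (∏ i, (x i : ℝ)) / Real.log N ^ U := by
  obtain ⟨N₀, h0⟩ := Pool.Agent.U828.KD.nearAllG (crit k B U hk ε hε) R C U η hη
  refine ⟨N₀, fun N hN d hd x hx f hf hb => ?_⟩
  apply h0 N hN d hd x hx f hf hb _ (filter_subset _ _)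
  intro m hm
  have h1 := (mem_filter.1 hm).2
  unfold AllNear at h1
  push Not at h1
  exact h1

end Pool.Agent.Results.MP_68a45e_nt.HigherConvexShifts
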