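import Pool.Agent.U28.SF.SF9
import Pool.Agent.Y877.RoI

set_option autoImplicit false

/-!
# In almost every direction: prime tuples, and their progressions, in all short intervals

For every `k ≥ 1` there are `L` and `c > 0` such that in every box of side at least `λ log N`, `λ > 0` arbitrarily small,
all but at most the proportion `ε` of the vectors `h = (h_1, ..., h_k)` have, for every `q ≥ 1` and `E ≥ L`, at least `c E`
multiples `e q h`, `1 ≤ e ≤ E`, for which the pattern `T = {0, e q h_1, ..., e q h_k}` satisfies the prime tuples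
conjecture up to constants in the following strong form. The number of `n ≤ N` for which all `n + t`, `t ∈ T`, are prime
has the conjectured order; for a positive proportion of the integers `x ≤ N` ALL the intervals `(x, x + H]`, `H ≤ N`, in
which at least one `n` is expected contain the right order of them; the same for every subset `U` of positive relative
density, and even for the elements of `U` which are the first of `m` terms of an arithmetic progression in `U` with
difference at most a power of `log N`.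

Proof: the total count for these multiples is a theorem of the starting library (`Pool.Agent.Y877.RoI`); the second
moment of sifted sets at their mean spacing and the covering argument are `Pool.Agent.U28.SF`; Szemerédi's theorem
for sifted sets is from the starting library.
-/

namespace Pool.Agent.Results.MP_68a45e_nt.MultiplesInAllShortIntervals

open Finset Filter

/-- the number of residue classes modulo `p` occupied by `T` -/
def nu (T : Finset ℕ) (p : ℕ) : ℕ := (T.image (· % p)).card

/-- the factor at `p` of the singular series of `T` -/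
noncomputable def loc (T : Finset ℕ) (p : ℕ) : ℝ :=
  (1 - (nu T p : ℝ) / p) / (1 - 1 / (p : ℝ)) ^ T.card

/-- the singular series of `T` -/
noncomputable def S (T : Finset ℕ) : ℝ := ∏' p : Nat.Primes, loc T p

/-- the integers `1 ≤ n ≤ N` for which all `n + t`, `t ∈ T`, are prime -/
def Q (N : ℕ) (T : Finset ℕ) : Finset ℕ := (Icc 1 N).filter (fun n => ∀ t ∈ T, (n + t).Prime)

/-- `n` is the first of `m` terms of an arithmetic progression in `U` with difference between `1` and `D` -/
def FirstTerm (m : ℕ) (D : ℝ) (U : Finset ℕ) (n : ℕ) : Prop :=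
  ∃ d : ℕ, 1 ≤ d ∧ (d : ℝ) ≤ D ∧ ∀ j < m, n + j * d ∈ U

open Classical in
/-- At least `κ N` of the integers `0 ≤ x ≤ N` are such that for ALL natural numbers `H ≤ N` with `μ H ≥ 1` the
interval `(x, x + H]` contains at least `κ μ H` integers with the property `P`. -/
def Everywhere (κ μ : ℝ) (N : ℕ) (P : ℕ → Prop) : Prop :=
  κ * N ≤ (((range (N + 1)).filter (fun x => ∀ H : ℕ, 1 ≤ μ * H → H ≤ N →
    κ * (μ * H) ≤ (((Ioc x (x + H)).filter P).card : ℝ))).card : ℝ)

/-- `T` is a pattern of `k + 1` shifts whose singular series converges to `S T > 0`; with `μ = S T / (log N) ^ (k + 1)`,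
`Q N T` has at least `κ μ N` elements, and every subset `U` of `Q N T` of relative density at least `ρ` satisfies
`Everywhere κ μ N (FirstTerm m D U)`. -/
def Good (k : ℕ) (κ ρ : ℝ) (m : ℕ) (D : ℝ) (N : ℕ) (T : Finset ℕ) : Prop :=
  T.card = k + 1 ∧ HasProd (fun p : Nat.Primes => loc T p) (S T) ∧ 0 < S T ∧
    κ * (S T / Real.log N ^ (k + 1) * N) ≤ (Q N T).card ∧
    ∀ U ⊆ Q N T, ρ * (Q N T).card ≤ U.card → Everywhere κ (S T / Real.log N ^ (k + 1)) N (FirstTerm m D U)

/-- the pattern `0, d h_1, ..., d h_k` -/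
def pattern {k : ℕ} (d : ℕ) (h : Fin k → ℕ) : Finset ℕ := insert 0 (univ.image (fun l => d * h l))

open Pool.Agent.H387R2.Uni Pool.Agent.Y877.RO

theorem everywhere_mono {κ κ' μ : ℝ} {N : ℕ} {P P' : ℕ → Prop} (hκ : κ' ≤ κ) (hμ : 0 ≤ μ) (hP : ∀ n, P n → P' n)
    (H : Pool.Agent.U28.PG.AllLengths κ μ N P) : Everywhere κ' μ N P' := by
  classical
  unfold Pool.Agent.U28.PG.AllLengths at H
  unfold Everywhere
  refine (mul_le_mul_of_nonneg_right hκ (Nat.cast_nonneg N)).trans (H.trans ?_)
  rw [Nat.cast_le]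
  apply card_le_card
  intro n hn
  rw [mem_filter] at hn ⊢
  refine ⟨hn.1, fun K hK1 hK2 => ?_⟩
  have h1 : 0 ≤ μ * (K : ℝ) := mul_nonneg hμ (Nat.cast_nonneg K)
  refine (mul_le_mul_of_nonneg_right hκ h1).trans ((hn.2 K hK1 hK2).trans ?_)
  rw [Nat.cast_le]
  apply card_le_card
  intro p hp
  rw [mem_filter] at hp ⊢
  exact ⟨hp.1, hP p hp.2⟩

open Classical in
/-- **Prime tuples in all short intervals, in almost every direction.** For every `k ≥ 1` there are `L` and `c > 0` such
that for all `m` and all `ε, lam, ρ > 0` there are `κ > 0` and `B` such that for every `C` and all large `N`: for all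
`q ≥ 1`, all `E ≥ L` and every box `∏ (u_l, u_l + H]` with `H ≥ lam log N` and `q E (u_l + H) ≤ (log N) ^ C`, at least
`(1 - ε) H ^ k` of the vectors `h` of the box have at least `c E` multiples `e q h`, `1 ≤ e ≤ E`, for which
`Good k κ ρ m ((log N) ^ B) N` holds for the pattern `0, e q h_1, ..., e q h_k`. -/
theorem result : ∀ k : ℕ, 1 ≤ k → ∃ (L : ℕ) (c : ℝ), 0 < c ∧ ∀ (m : ℕ) (ε lam ρ : ℝ), 0 < ε → 0 < lam → 0 < ρ →
    ∃ κ : ℝ, 0 < κ ∧ ∃ B : ℕ, ∀ C : ℝ, ∃ N₀ : ℕ, ∀ N : ℕ, N₀ ≤ N → ∀ q : ℕ, 1 ≤ q → ∀ E : ℕ, L ≤ E →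
    ∀ (H : ℕ) (u : Fin k → ℕ), lam * Real.log N ≤ H → (∀ l, (q : ℝ) * E * (u l + H) ≤ Real.log N ^ C) →
    (1 - ε) * (H : ℝ) ^ k ≤ (((Fintype.piFinset (fun l => Ioc (u l) (u l + H))).filter (fun h =>
      c * E ≤ (((Icc 1 E).filter (fun e =>
        Good k κ ρ m (Real.log N ^ B) N (pattern (e * q) h))).card : ℝ))).card : ℝ) := by
  intro k hk
  obtain ⟨L, c, hc, hL⟩ := propMult k hk
  refine ⟨L, c, hc, fun m ε lam ρ hε hlam hρ => ?_⟩
  obtain ⟨κ0, hκ0, h⟩ := hL ε lam hε hlam
  obtain ⟨κ1, hκ1, B, ht⟩ := Pool.Agent.U28.SF.tuples_all (k + 1) m (by omega) (ρ * κ0) (by positivity)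
  refine ⟨min κ0 κ1, lt_min hκ0 hκ1, B, fun C => ?_⟩
  obtain ⟨N₀, hN₀⟩ := Filter.eventually_atTop.1 (h C)
  obtain ⟨N₁, hN₁⟩ := Filter.eventually_atTop.1 ht
  refine ⟨max (max N₀ N₁) 2, fun N hN q hq E hE H u hH hu => ?_⟩
  have hN0 : N₀ ≤ N := (le_max_left _ _).trans ((le_max_left _ _).trans hN)
  have hN1 : N₁ ≤ N := (le_max_right _ _).trans ((le_max_left _ _).trans hN)
  have hN2 : 2 ≤ N := (le_max_right _ _).trans hN
  have hlog : 0 < Real.log (N : ℝ) := Real.log_pos (by exact_mod_cast (by omega : 1 < N))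
  refine (hN₀ N hN0 q hq E hE H u hH hu).trans ?_
  apply Nat.cast_le.2
  apply card_le_card
  intro v hv
  rw [mem_filter] at hv ⊢
  refine ⟨hv.1, hv.2.trans ?_⟩
  apply Nat.cast_le.2
  apply card_le_card
  intro e he
  rw [mem_filter] at he ⊢
  refine ⟨he.1, ?_⟩
  obtain ⟨h1, h2, h3⟩ := he.2
  have hCT : 0 < CT (pattern (e * q) v) := Pool.Agent.U28.PG.CT_pos h2
  have hμ : 0 ≤ S (pattern (e * q) v) / Real.log N ^ (k + 1) := div_nonneg hCT.le (by positivity)
  have h3' : κ0 * (S (pattern (e * q) v) / Real.log N ^ (k + 1) * N) ≤ (Q N (pattern (e * q) v)).card := by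
    refine le_trans (le_of_eq ?_) h3
    change κ0 * (CT (pattern (e * q) v) / Real.log N ^ (k + 1) * N) =
      κ0 * CT (pattern (e * q) v) * (N / Real.log N ^ (k + 1))
    ring
  refine ⟨h1, CT_hasProd _, hCT, ?_, fun U hU hUc => ?_⟩
  · refine le_trans ?_ h3'
    exact mul_le_mul_of_nonneg_right (min_le_left _ _) (mul_nonneg hμ (Nat.cast_nonneg N))
  · have key := hN₁ N hN1 (pattern (e * q) v) h1 hCT U (by
      intro n hn
      have := hU hn
      unfold Q at this
      rw [mem_filter, mem_Icc] at this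
      exact ⟨this.1.1, this.1.2, this.2⟩) (by
      refine le_trans ?_ hUc
      calc ρ * κ0 * (CT (pattern (e * q) v) * (N / Real.log N ^ (k + 1))) =
            ρ * (κ0 * (S (pattern (e * q) v) / Real.log N ^ (k + 1) * N)) := by
            change _ = ρ * (κ0 * (CT (pattern (e * q) v) / Real.log N ^ (k + 1) * N))
            ring
        _ ≤ ρ * (Q N (pattern (e * q) v)).card := mul_le_mul_of_nonneg_left h3' hρ.le)
    exact everywhere_mono (min_le_right _ _) hμ (fun n hn => hn) key

end Pool.Agent.Results.MP_68a45e_nt.MultiplesInAllShortIntervals
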