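import Pool.Agent.U28.PG.HL4

set_option autoImplicit false

/-!
# Prime tuples in all short intervals at once, for a positive proportion of the patterns of every set

Let `A` be any set of at least `lam (φ(q)/q) log N` integers in one residue class modulo `q`, below a
power of `log N`. The proportion `4 ^ (-k) - ε` of the `(k + 1)`-element subsets `T` of `A` (measured
by the Hardy-Littlewood constant `CT T`) has the following property: for a positive proportion of the
integers `n ≤ N`, and for all these `n` simultaneously for ALL lengths `H` between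
`(log N) ^ (k + 1) / CT T` (where one prime tuple `m + T` is expected in `(n, n + H]`) and `N`, the
interval `(n, n + H]` contains at least a constant times the expected number of prime tuples.

The total count for these patterns is the theorem `Pool.Agent.H362R2.QT` of the starting files. New:
the number of pairs of prime tuples `n + T`, `n + d + T` at distance `d ≤ H` is bounded by an upper
bound sieve for `2 k + 2` forms, on average over `d` and uniformly in the pattern `T`, down to the
length where one tuple is expected (`Pool.Agent.U28.PG.HL1`, `HL3`), and a covering argument treats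
all lengths simultaneously (`Pool.Agent.U28.PG.Ladder`).
-/

namespace Pool.Agent.Results.MP_68a45e_nt.TuplesInAllShortIntervals

open Finset Pool.Agent.H387R2.Uni

open Classical in
/-- With the predicted number `μ H` of prime tuples `m + T`, `n < m ≤ n + H`: at least `κ N` integers
`n ≤ N` are such that for ALL natural numbers `H ≤ N` with `μ H ≥ 1` there are at least `κ μ H`
integers `m ∈ (n, n + H]` with all `m + t`, `t ∈ T`, prime. -/
def InAllIntervals (κ μ : ℝ) (N : ℕ) (T : Finset ℕ) : Prop :=
  κ * N ≤ (((range (N + 1)).filter (fun n => ∀ H : ℕ, 1 ≤ μ * H → H ≤ N →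
    κ * (μ * H) ≤ (((Ioc n (n + H)).filter (fun m => ∀ t ∈ T, (m + t).Prime)).card : ℝ))).card : ℝ)

open Classical in
/-- `CT T` is the Hardy-Littlewood constant of the pattern `T`: the convergent product of the local
factors `(1 - ν_p(T)/p) / (1 - 1/p) ^ |T|`, positive if `T` is admissible.

For `k ≥ 1`, `ε > 0`, `lam > 0` there is `κ > 0` such that for all `q ≥ 1` and `C`, all large `N` and
every set `A` of integers `a ≤ (log N) ^ C`, all in one residue class modulo `q`, with
`|A| ≥ lam (φ(q)/q) log N`: the proportion `4 ^ (-k) - ε` of the `(k + 1)`-element subsets `T` of `A`,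
measured by `CT T`, satisfies `InAllIntervals κ (CT T / (log N) ^ (k + 1)) N T`. -/
theorem result :
    (∀ T : Finset ℕ, HasProd (fun p : Nat.Primes => locT T p) (CT T) ∧ (Adm T → 0 < CT T)) ∧
    ∀ k : ℕ, 1 ≤ k → ∀ ε : ℝ, 0 < ε → ∀ lam : ℝ, 0 < lam → ∃ κ : ℝ, 0 < κ ∧
      ∀ q : ℕ, 1 ≤ q → ∀ C : ℝ, ∃ N₀ : ℕ, ∀ N : ℕ, N₀ ≤ N →
        ∀ (c : ℕ) (A : Finset ℕ), (∀ a ∈ A, a ≡ c [MOD q]) →
          (∀ a ∈ A, (a : ℝ) ≤ Real.log N ^ C) → lam * ((Nat.totient q : ℝ) / q) * Real.log N ≤ A.card →
          κ * ((q : ℝ) / Nat.totient q) ^ k * (A.card : ℝ) ^ (k + 1) ≤ ∑ T ∈ A.powersetCard (k + 1), CT T ∧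
          ((1 / 4 : ℝ) ^ k - ε) * ∑ T ∈ A.powersetCard (k + 1), CT T ≤
            ∑ T ∈ (A.powersetCard (k + 1)).filter
              (fun T => InAllIntervals κ (CT T / Real.log N ^ (k + 1)) N T), CT T := by
  refine ⟨fun T => ⟨CT_hasProd T, Pool.Agent.U28.PG.CT_pos⟩, fun k hk ε hε lam hlam => ?_⟩
  obtain ⟨κ, hκ, h⟩ := Pool.Agent.U28.PG.quarter k hk hε hlam
  refine ⟨κ, hκ, fun q hq C => ?_⟩
  obtain ⟨N₀, h⟩ := h q hq C
  refine ⟨N₀, fun N hN c A h1 h2 h3 => ?_⟩
  obtain ⟨h4, h5⟩ := h N hN c A h1 h2 h3
  refine ⟨h4, h5.trans (le_of_eq ?_)⟩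
  apply sum_congr _ fun _ _ => rfl
  apply filter_congr
  intro T _
  unfold InAllIntervals Pool.Agent.U28.PG.AllLengths
  refine iff_of_eq ?_
  congr!

end Pool.Agent.Results.MP_68a45e_nt.TuplesInAllShortIntervals
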